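import Mathlib
import Pool.Agent.Lib.MP_d6bcd1_co.Examples

/-!
# Designs minimising the closed-walk numbers need not be A-optimal

A negative answer to Paterson's question, stated for designs as assignments of treatments to plots.
-/

set_option autoImplicit false

namespace Pool.Agent.Results.MP_d6bcd1_co.WalkMinimalNotOptimal

open Matrix
open scoped ENNReal

/-- A `(v, b, k, r)`-design: there are `b` blocks of `k` plots, plot `l` of block `j` receives the
treatment `trt j l`, and every treatment is used on exactly `r` plots. -/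
structure Design (v b k r : ℕ) where
  trt : Fin b → Fin k → Fin v
  rep : ∀ i : Fin v, (Finset.univ.filter fun p : Fin b × Fin k => trt p.1 p.2 = i).card = r

namespace Design

variable {v b k r : ℕ}

/-- The incidence matrix: the number of plots of block `j` that receive treatment `i`. -/
def inc (D : Design v b k r) : Matrix (Fin v) (Fin b) ℕ :=
  fun i j => (Finset.univ.filter fun l : Fin k => D.trt j l = i).card

/-- The adjacency matrix `N Nᵀ - r I` of the variety concurrence graph. -/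
def adj (D : Design v b k r) : Matrix (Fin v) (Fin v) ℤ :=
  D.inc.map (fun x : ℕ => (x : ℤ)) * (D.inc.map (fun x : ℕ => (x : ℤ)))ᵀ
    - (r : ℤ) • (1 : Matrix (Fin v) (Fin v) ℤ)

/-- Two distinct treatments are adjacent if they are joined by an edge of the variety concurrence
graph. -/
def graph (D : Design v b k r) : SimpleGraph (Fin v) where
  Adj x y := x ≠ y ∧ D.adj x y ≠ 0 ∧ D.adj y x ≠ 0
  symm := ⟨fun _ _ h => ⟨h.1.symm, h.2.2, h.2.1⟩⟩
  loopless := ⟨fun _ h => h.1 rfl⟩

/-- The class `𝓑` of connected binary designs. -/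
def InB (D : Design v b k r) : Prop := (∀ i j, D.inc i j ≤ 1) ∧ D.graph.Connected

/-- The number `Γ_h` of closed walks of length `h` in the variety concurrence graph. -/
def walks (D : Design v b k r) (h : ℕ) : ℤ := (D.adj ^ h).trace

/-- The information matrix `r I - (1/k) N Nᵀ`. -/
noncomputable def info (D : Design v b k r) : Matrix (Fin v) (Fin v) ℝ :=
  (r : ℝ) • (1 : Matrix (Fin v) (Fin v) ℝ)
    - (1 / (k : ℝ)) • (D.inc.map (fun x : ℕ => (x : ℝ)) * (D.inc.map (fun x : ℕ => (x : ℝ)))ᵀ)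

/-- The eigenvalues of the information matrix, with multiplicities, after removing one copy of the
eigenvalue `0`. -/
noncomputable def eig (D : Design v b k r) : Multiset ℝ := D.info.charpoly.roots.erase 0

/-- The sum of the reciprocals of the eigenvalues `eig D`, with `1 / 0 = ∞`. -/
noncomputable def aval (D : Design v b k r) : ℝ≥0∞ :=
  (D.eig.map fun x => (ENNReal.ofReal x)⁻¹).sum

/-- `D` is A-optimal among all designs with the same parameters, binary or not. -/
def AOptimal (D : Design v b k r) : Prop := ∀ D' : Design v b k r, D.aval ≤ D'.aval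

/-- `D` minimises sequentially `Γ_2, Γ_3, …` within `𝓑`: for every `D'` in `𝓑`, at the first
index `t ≥ 2` with `Γ'_t ≠ Γ_t` one has `Γ_t < Γ'_t`. -/
def SeqMinimal (D : Design v b k r) : Prop :=
  ∀ D' : Design v b k r, D'.InB → ∀ t : ℕ, 2 ≤ t →
    (∀ h : ℕ, 2 ≤ h → h < t → D'.walks h = D.walks h) → D'.walks t ≠ D.walks t →
      D.walks t < D'.walks t

theorem inc_col (D : Design v b k r) (j : Fin b) : ∑ i, D.inc i j = k := by
  have h := Finset.card_eq_sum_card_fiberwise (s := (Finset.univ : Finset (Fin k)))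
    (t := (Finset.univ : Finset (Fin v))) (f := fun l => D.trt j l) (fun _ _ => Finset.mem_coe.2 (Finset.mem_univ _))
  rw [Finset.card_univ, Fintype.card_fin] at h
  exact h.symm

theorem inc_row (D : Design v b k r) (i : Fin v) : ∑ j, D.inc i j = r := by
  refine Eq.trans ?_ (D.rep i)
  have h := Finset.card_eq_sum_card_fiberwise
    (s := Finset.univ.filter fun p : Fin b × Fin k => D.trt p.1 p.2 = i)
    (t := (Finset.univ : Finset (Fin b))) (f := fun p => p.1) (fun _ _ => Finset.mem_coe.2 (Finset.mem_univ _))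
  rw [h]
  refine Finset.sum_congr rfl fun j _ => ?_
  apply Finset.card_bij (fun l _ => (j, l))
  · intro l hl
    rw [Finset.mem_filter, Finset.mem_filter]
    exact ⟨⟨Finset.mem_univ _, (Finset.mem_filter.1 hl).2⟩, rfl⟩
  · intro l _ l' _ h
    exact (Prod.mk.inj h).2
  · rintro ⟨j', l⟩ hl
    simp only [Finset.mem_filter, Finset.mem_univ, true_and] at hl
    obtain ⟨h1, rfl⟩ := hl
    exact ⟨l, by simpa using h1, rfl⟩

/-- Every matrix with the right row and column sums is the incidence matrix of a design. -/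
theorem exists_design (M : Matrix (Fin v) (Fin b) ℕ) (hcol : ∀ j, ∑ i, M i j = k)
    (hrow : ∀ i, ∑ j, M i j = r) : ∃ D : Design v b k r, D.inc = M := by
  have hf : ∀ j, ∃ f : Fin k → Fin v, ∀ i, (Finset.univ.filter fun l => f l = i).card = M i j := by
    intro j
    let e : (Σ i, Fin (M i j)) ≃ Fin k := finSigmaFinEquiv.trans (finCongr (hcol j))
    refine ⟨fun l => (e.symm l).1, fun i => ?_⟩
    rw [← Fintype.card_fin (M i j), ← Finset.card_univ]
    symm
    apply Finset.card_bij (fun a _ => e ⟨i, a⟩)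
    · intro a _
      simp
    · intro a _ a' _ h
      have h1 := e.injective h
      exact eq_of_heq (Sigma.mk.inj h1).2
    · intro l hl
      simp only [Finset.mem_filter, Finset.mem_univ, true_and] at hl
      obtain ⟨⟨i', a⟩, rfl⟩ := e.surjective l
      rw [Equiv.symm_apply_apply] at hl
      subst hl
      exact ⟨a, Finset.mem_univ _, rfl⟩
  choose f hf using hf
  refine ⟨⟨f, fun i => ?_⟩, ?_⟩
  · rw [← hrow i]
    have h := Finset.card_eq_sum_card_fiberwise
      (s := Finset.univ.filter fun p : Fin b × Fin k => f p.1 p.2 = i)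
      (t := (Finset.univ : Finset (Fin b))) (f := fun p => p.1) (fun _ _ => Finset.mem_coe.2 (Finset.mem_univ _))
    rw [h]
    refine Finset.sum_congr rfl fun j _ => ?_
    rw [← hf j i]
    symm
    apply Finset.card_bij (fun l _ => (j, l))
    · intro l hl
      rw [Finset.mem_filter, Finset.mem_filter]
      exact ⟨⟨Finset.mem_univ _, (Finset.mem_filter.1 hl).2⟩, rfl⟩
    · intro l _ l' _ h
      exact (Prod.mk.inj h).2
    · rintro ⟨j', l⟩ hl
      simp only [Finset.mem_filter, Finset.mem_univ, true_and] at hl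
      obtain ⟨h1, rfl⟩ := hl
      exact ⟨l, by simpa using h1, rfl⟩
  · funext i j
    exact hf j i

end Design

open Design

theorem trt_injective {v b k r : ℕ} : Function.Injective (Design.trt (v := v) (b := b) (k := k) (r := r)) := by
  rintro ⟨f, hf⟩ ⟨g, hg⟩ h
  change f = g at h
  subst h
  rfl

instance {v b k r : ℕ} : Finite (Design v b k r) := Finite.of_injective _ trt_injective

open Pool.Agent.Lib.MP_d6bcd1_co

/-! ### The sum of reciprocals in `[0, ∞]` -/

theorem sum_top {s : Multiset ℝ} (h : ∃ x ∈ s, x ≤ 0) :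
    (s.map fun x => (ENNReal.ofReal x)⁻¹).sum = ∞ := by
  obtain ⟨x, hx, hx0⟩ := h
  rw [← Multiset.cons_erase hx, Multiset.map_cons, Multiset.sum_cons, ENNReal.ofReal_of_nonpos hx0,
    ENNReal.inv_zero, top_add]

theorem sum_pos' {s : Multiset ℝ} (h : ∀ x ∈ s, 0 < x) :
    (s.map fun x => (ENNReal.ofReal x)⁻¹).sum = ENNReal.ofReal ((s.map fun x => x⁻¹).sum) ∧
      0 ≤ (s.map fun x => x⁻¹).sum := by
  induction s using Multiset.induction_on with
  | empty => simp
  | cons a s ih =>
    obtain ⟨h1, h2⟩ := ih fun x hx => h x (Multiset.mem_cons_of_mem hx)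
    have ha := h a (Multiset.mem_cons_self a s)
    have ha' : 0 ≤ a⁻¹ := (inv_pos.2 ha).le
    rw [Multiset.map_cons, Multiset.sum_cons, Multiset.map_cons, Multiset.sum_cons, h1,
      ENNReal.ofReal_add ha' h2, ENNReal.ofReal_inv_of_pos ha]
    exact ⟨rfl, add_nonneg ha' h2⟩

/-! ### Positive semidefiniteness -/

theorem Cr_psd {D : Matrix (Fin 18) (Fin 63) ℕ} (hcol : ∀ j, ∑ i, D i j = 2)
    (hrow : ∀ i, ∑ j, D i j = 7) (hle : ∀ i j, D i j ≤ 1) : (Cr D).PosSemidef := by
  have hrowR : ∀ i, ∑ j, ((Xz D i j : ℤ) : ℝ) = 7 := by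
    intro i
    have := Xz_row hcol hrow i
    exact_mod_cast this
  rw [posSemidef_iff_dotProduct_mulVec]
  refine ⟨Cr_herm D, ?_⟩
  intro x
  have key : star x ⬝ᵥ (Cr D *ᵥ x)
      = (1 / 4 : ℝ) * ∑ i, ∑ j, ((Xz D i j : ℤ) : ℝ) * (x i - x j) ^ 2 := by
    rw [Cr_eq]
    have e1 : ∀ i j, ((Xz D i j : ℤ) : ℝ) * (x i - x j) ^ 2
        = ((Xz D i j : ℤ) : ℝ) * (x i) ^ 2 + ((Xz D i j : ℤ) : ℝ) * (x j) ^ 2
          - 2 * (((Xz D i j : ℤ) : ℝ) * x i * x j) := by
      intro i j; ring
    simp only [e1, Finset.sum_sub_distrib, Finset.sum_add_distrib]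
    have e2 : ∑ i, ∑ j, ((Xz D i j : ℤ) : ℝ) * (x i) ^ 2 = 7 * ∑ i, (x i) ^ 2 := by
      rw [Finset.mul_sum]
      apply Finset.sum_congr rfl
      intro i _
      rw [← Finset.sum_mul, hrowR]
    have e3 : ∑ i, ∑ j, ((Xz D i j : ℤ) : ℝ) * (x j) ^ 2 = 7 * ∑ i, (x i) ^ 2 := by
      rw [Finset.sum_comm, ← e2]
      apply Finset.sum_congr rfl
      intro i _
      apply Finset.sum_congr rfl
      intro j _
      rw [Xz_symm]
    rw [e2, e3]
    have e4 : star x ⬝ᵥ (((1 / 2 : ℝ) • ((7 : ℝ) • (1 : Matrix (Fin 18) (Fin 18) ℝ) - Xr D))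
        *ᵥ x) = (7 / 2) * ∑ i, (x i) ^ 2
          - (1 / 2) * ∑ i, ∑ j, ((Xz D i j : ℤ) : ℝ) * x i * x j := by
      rw [smul_mulVec, sub_mulVec, smul_mulVec, one_mulVec]
      simp only [dotProduct, Pi.star_apply, star_trivial, Pi.smul_apply, Pi.sub_apply,
        smul_eq_mul, mulVec, Xr_apply]
      rw [Finset.mul_sum, Finset.mul_sum, ← Finset.sum_sub_distrib]
      apply Finset.sum_congr rfl
      intro i _
      have : ∑ j, ((Xz D i j : ℤ) : ℝ) * x i * x j
          = x i * ∑ j, ((Xz D i j : ℤ) : ℝ) * x j := by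
        rw [Finset.mul_sum]
        apply Finset.sum_congr rfl
        intro j _
        ring
      rw [this]
      ring
    rw [e4]
    have e5 : ∑ i, ∑ j, 2 * (((Xz D i j : ℤ) : ℝ) * x i * x j)
        = 2 * ∑ i, ∑ j, ((Xz D i j : ℤ) : ℝ) * x i * x j := by
      simp only [Finset.mul_sum]
    rw [e5]
    ring
  rw [key]
  apply mul_nonneg (by norm_num)
  apply Finset.sum_nonneg
  intro i _
  apply Finset.sum_nonneg
  intro j _
  apply mul_nonneg _ (sq_nonneg _)
  exact_mod_cast Xz_nonneg hrow hle i j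

theorem root_nonneg {D : Matrix (Fin 18) (Fin 63) ℕ} (hcol : ∀ j, ∑ i, D i j = 2)
    (hrow : ∀ i, ∑ j, D i j = 7) (hle : ∀ i j, D i j ≤ 1) :
    ∀ x ∈ (Cr D).charpoly.roots.erase 0, 0 ≤ x := by
  intro x hx
  have h1 := Multiset.mem_of_mem_erase hx
  have hC := Cr_herm D
  rw [roots_eq hC, Multiset.mem_map] at h1
  obtain ⟨i, _, rfl⟩ := h1
  exact (Cr_psd hcol hrow hle).eigenvalues_nonneg i

/-! ### The graph of a design -/

theorem adj_eq (D : Design 18 63 2 7) : D.adj = Xz D.inc := rfl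

theorem info_eq (D : Design 18 63 2 7) : D.info = Cr D.inc := by
  unfold Design.info Cr
  norm_num

theorem conn_of {D : Design 18 63 2 7} (R : Fin 18 → Fin 18 → Prop)
    (hR : ∀ x y, x ≠ y → R x y → Xz D.inc x y ≠ 0)
    (hpath : ∀ i : Fin 18, ∃ j k : Fin 18, (0 = j ∨ (0 ≠ j ∧ R 0 j)) ∧
      (j = k ∨ (j ≠ k ∧ R j k)) ∧ (k = i ∨ (k ≠ i ∧ R k i))) : D.graph.Connected := by
  have hadj : ∀ x y : Fin 18, x ≠ y → R x y → D.graph.Adj x y := by
    intro x y hxy h1
    have h2 := hR x y hxy h1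
    refine ⟨hxy, h2, ?_⟩
    have h3 : D.adj y x = Xz D.inc y x := rfl
    rw [h3, Xz_symm]
    exact h2
  rw [SimpleGraph.connected_iff_exists_forall_reachable]
  refine ⟨0, fun i => ?_⟩
  obtain ⟨j, k, h1, h2, h3⟩ := hpath i
  have r1 : D.graph.Reachable 0 j := by
    rcases h1 with h | ⟨h, h'⟩
    · rw [h]
    · exact (hadj _ _ h h').reachable
  have r2 : D.graph.Reachable j k := by
    rcases h2 with h | ⟨h, h'⟩
    · rw [h]
    · exact (hadj _ _ h h').reachable
  have r3 : D.graph.Reachable k i := by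
    rcases h3 with h | ⟨h, h'⟩
    · rw [h]
    · exact (hadj _ _ h h').reachable
  exact (r1.trans r2).trans r3

theorem M2_le : ∀ i j, M2 i j ≤ 1 := by decide +kernel

theorem L2_path : ∀ i : Fin 18, ∃ j k : Fin 18, (0 = j ∨ (0 ≠ j ∧ L2 0 j = -1)) ∧
    (j = k ∨ (j ≠ k ∧ L2 j k = -1)) ∧ (k = i ∨ (k ≠ i ∧ L2 k i = -1)) := by
  decide +kernel

theorem exists_B1 : ∃ D : Design 18 63 2 7, D.InB ∧ D.walks 2 = 126 ∧ D.walks 3 = 0 := by
  obtain ⟨D, hD⟩ := exists_design (k := 2) (r := 7) (W1 : Matrix (Fin 18) (Fin 63) ℕ) M1_col M1_row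
  refine ⟨D, ⟨?_, ?_⟩, ?_, ?_⟩
  · rw [hD]
    exact M1_le
  · refine conn_of (fun x y => X1 x y = 1) ?_ X1_path
    intro x y _ h
    rw [hD, Xz_M1, h]
    exact one_ne_zero
  · change (Xz D.inc ^ 2).trace = 126
    rw [hD]
    exact M1_tr2
  · change (Xz D.inc ^ 3).trace = 0
    rw [hD]
    exact M1_tr3

theorem exists_B2 : ∃ D : Design 18 63 2 7, D.InB ∧
    D.aval = ENNReal.ofReal (64620180 / (9 * 1471008)) := by
  obtain ⟨D, hD⟩ := exists_design (k := 2) (r := 7) (W2 : Matrix (Fin 18) (Fin 63) ℕ) M2_col M2_row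
  refine ⟨D, ⟨?_, ?_⟩, ?_⟩
  · rw [hD]
    exact M2_le
  · refine conn_of (fun x y => L2 x y = -1) ?_ L2_path
    intro x y hxy h
    rw [hD, Xz_apply, if_neg hxy, sub_zero]
    have h1 := L2_eq x y
    rw [if_neg hxy, h] at h1
    change ∑ b, (M2 x b : ℤ) * (M2 y b : ℤ) ≠ 0
    omega
  · obtain ⟨h1, h2⟩ := M2_pinv
    unfold Design.aval Design.eig
    rw [info_eq, hD]
    have hpos : ∀ x ∈ (Cr W2).charpoly.roots.erase 0, 0 < x := by
      intro x hx
      refine lt_of_le_of_ne (root_nonneg M2_col M2_row M2_le x hx) ?_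
      rintro rfl
      exact h2 hx
    rw [(sum_pos' hpos).1, h1]

/-- Every connected binary `(18, 63, 2, 7)`-design which minimises sequentially the closed-walk
numbers has a large sum of reciprocals. -/
theorem aval_of_min {D : Design 18 63 2 7} (hB : D.InB) (hm : D.SeqMinimal) :
    ENNReal.ofReal (1 / 7 + 224 / 47.25) ≤ D.aval := by
  obtain ⟨D₁, hB₁, h2₁, h3₁⟩ := exists_B1
  have hcol := D.inc_col
  have hrow := D.inc_row
  have hle := hB.1
  have g2 : (Xz D.inc ^ 2).trace ≤ 126 := by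
    change D.walks 2 ≤ 126
    by_contra hcon
    have h1 := hm D₁ hB₁ 2 le_rfl (fun h h1 h2 => by omega) (by omega)
    omega
  have g2' : (Xz D.inc ^ 2).trace = 126 := by
    apply le_antisymm g2
    rw [trace_sq]
    have hs : ∑ i, ∑ j, Xz D.inc i j = 126 := by
      simp only [Xz_row hcol hrow]
      simp
    rw [← hs]
    apply Finset.sum_le_sum
    intro i _
    apply Finset.sum_le_sum
    intro j _
    rw [Xz_symm j i]
    rcases Xz_01 hcol hrow hle g2 i j with h | h <;> rw [h] <;> norm_num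
  have g2'' : D.walks 2 = 126 := g2'
  have g3 : (Xz D.inc ^ 3).trace ≤ 0 := by
    change D.walks 3 ≤ 0
    by_contra hcon
    have h1 := hm D₁ hB₁ 3 (by norm_num) (fun h h1 h2 => by
      have h3 : h = 2 := by omega
      rw [h3, h2₁, g2'']) (by omega)
    omega
  unfold Design.aval Design.eig
  rw [info_eq]
  by_cases h0 : ∃ x ∈ (Cr D.inc).charpoly.roots.erase 0, x ≤ 0
  · rw [sum_top h0]
    exact le_top
  · push Not at h0
    rw [(sum_pos' h0).1]
    apply ENNReal.ofReal_le_ofReal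
    exact design_bound hcol hrow hle g2 g3 fun h => lt_irrefl _ (h0 0 h)

theorem exists_min : ∃ D : Design 18 63 2 7, D.InB ∧ D.SeqMinimal := by
  obtain ⟨D₁, hB₁, _, _⟩ := exists_B1
  obtain ⟨D, hD, hmin⟩ := Set.exists_min_image {D : Design 18 63 2 7 | D.InB}
    (fun D => (toLex (fun h : ℕ => D.walks (h + 2)) : Lex (ℕ → ℤ))) (Set.toFinite _) ⟨D₁, hB₁⟩
  refine ⟨D, hD, fun D' hD' t ht hagree hne => ?_⟩
  by_contra hcon
  have hlt : D'.walks t < D.walks t := lt_of_le_of_ne (not_lt.1 hcon) hne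
  have h1 := hmin D' hD'
  apply absurd h1
  rw [not_le]
  refine ⟨t - 2, ?_, ?_⟩
  · intro j hj
    exact hagree (j + 2) (by omega) (by omega)
  · have h2 : t - 2 + 2 = t := by omega
    change D'.walks (t - 2 + 2) < D.walks (t - 2 + 2)
    rw [h2]
    exact hlt

/-- For `(v, b, k, r) = (18, 63, 2, 7)` there are connected binary designs which minimise
sequentially `Γ_2, Γ_3, …`, but none of them is A-optimal: some connected binary design has a
smaller sum of reciprocal eigenvalues than all of them. -/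
theorem result : ∃ v b k r : ℕ, 0 < v ∧ 0 < b ∧ 0 < k ∧ 0 < r ∧ v * r = b * k ∧
    (∃ D : Design v b k r, D.InB ∧ D.SeqMinimal) ∧
    (∀ D : Design v b k r, D.InB → D.SeqMinimal → ¬ D.AOptimal) ∧
    ∃ D₀ : Design v b k r, D₀.InB ∧ ∀ D : Design v b k r, D.InB → D.SeqMinimal →
      D₀.aval < D.aval := by
  obtain ⟨D₀, hB, ha⟩ := exists_B2
  have hlt : ∀ D : Design 18 63 2 7, D.InB → D.SeqMinimal → D₀.aval < D.aval := by
    intro D hD hm
    refine lt_of_lt_of_le ?_ (aval_of_min hD hm)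
    rw [ha]
    exact (ENNReal.ofReal_lt_ofReal_iff (by norm_num)).2 (by norm_num)
  exact ⟨18, 63, 2, 7, by norm_num, by norm_num, by norm_num, by norm_num, by norm_num, exists_min,
    fun D hD hm hA => not_le.2 (hlt D hD hm) (hA D₀), D₀, hB, hlt⟩

end Pool.Agent.Results.MP_d6bcd1_co.WalkMinimalNotOptimal
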